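import Pool.Agent.H14R2.RD.S.ZENO
import Pool.Agent.H14R2.RD.S.MU
import Pool.Agent.H14R2.RD.S.TQB

/-! Task DISP (helper541) of project RC3 (helper14). -/

namespace RC14
open scoped InnerProductSpace
open Finset

variable {G : Type*} [Group G] [Fintype G]
variable {V : Type*} [NormedAddCommGroup V] [InnerProductSpace ℂ V] [FiniteDimensional ℂ V]

namespace DISPaux

omit [Group G] [FiniteDimensional ℂ V] in
theorem re_avg (μ : G → ℝ) (A : G → Module.End ℂ V) (v : V) :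
    (⟪(∑ g, (μ g : ℂ) • A g) v, v⟫_ℂ).re = ∑ g, μ g * (⟪A g v, v⟫_ℂ).re := by
  rw [LinearMap.sum_apply, sum_inner, Complex.re_sum]
  refine Finset.sum_congr rfl fun g _ => ?_
  rw [LinearMap.smul_apply, inner_smul_left, Complex.conj_ofReal, Complex.re_ofReal_mul]

omit [Fintype G] [FiniteDimensional ℂ V] in
theorem rho_inv (ρ : G →* (V ≃ₗᵢ[ℂ] V)) (g : G) (v : V) : ρ g (ρ g⁻¹ v) = v := by
  rw [map_inv]
  exact (ρ g).apply_symm_apply v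

omit [FiniteDimensional ℂ V] in
theorem norm_sq_re (v : V) : (⟪v, v⟫_ℂ).re = ‖v‖ ^ 2 := by
  rw [inner_self_eq_norm_sq_to_K]
  norm_cast

omit [FiniteDimensional ℂ V] in
theorem proj_re (E : Module.End ℂ V) (hE : SymIdem E) (w : V) :
    (⟪E w, w⟫_ℂ).re = ‖E w‖ ^ 2 := by
  have h1 : E w = E (E w) := by
    have := congrArg (fun A : Module.End ℂ V => A w) hE.2
    exact this.symm
  rw [← norm_sq_re (E w)]
  conv_lhs => rw [h1]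
  rw [hE.1 (E w) w]

omit [FiniteDimensional ℂ V] in
theorem proj_sub (E : Module.End ℂ V) (hE : SymIdem E) (w : V) :
    ‖w - E w‖ ^ 2 = ‖w‖ ^ 2 - ‖E w‖ ^ 2 := by
  rw [← norm_sq_re, inner_sub_left, inner_sub_right, inner_sub_right, Complex.sub_re,
    Complex.sub_re, Complex.sub_re, norm_sq_re, norm_sq_re, proj_re E hE w]
  have h : (⟪w, E w⟫_ℂ).re = ‖E w‖ ^ 2 := by
    rw [← proj_re E hE w, ← inner_conj_symm, Complex.conj_re]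
  rw [h]
  ring

omit [FiniteDimensional ℂ V] in
theorem proj_comp_le (E : Module.End ℂ V) (hE : SymIdem E) (w : V) : ‖w - E w‖ ≤ ‖w‖ := by
  have h := proj_sub E hE w
  have h2 : ‖w - E w‖ ^ 2 ≤ ‖w‖ ^ 2 := by
    rw [h]
    linarith [sq_nonneg ‖E w‖]
  exact le_of_sq_le_sq h2 (norm_nonneg _)
where
  le_of_sq_le_sq {a b : ℝ} (h : a ^ 2 ≤ b ^ 2) (hb : 0 ≤ b) : a ≤ b := by
    exact le_of_not_gt fun hlt => by nlinarith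

omit [Fintype G] [FiniteDimensional ℂ V] in
theorem one_term (ρ : G →* (V ≃ₗᵢ[ℂ] V)) (E : Module.End ℂ V) (hE : SymIdem E) (g : G) (v : V) :
    ‖v‖ ^ 2 - (⟪cj ρ E g v, v⟫_ℂ).re ≤
      2 * ‖v - E v‖ ^ 2 + 4 * (‖v‖ ^ 2 - (⟪op ρ g⁻¹ v, v⟫_ℂ).re) := by
  obtain ⟨w, hw⟩ : ∃ w, w = ρ g⁻¹ v := ⟨_, rfl⟩
  have h1 : (⟪cj ρ E g v, v⟫_ℂ).re = ‖E w‖ ^ 2 := by
    have h2 : cj ρ E g v = ρ g (E w) := by
      rw [hw]; rfl
    rw [h2]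
    conv_lhs => rw [← rho_inv ρ g v]
    rw [LinearIsometryEquiv.inner_map_map, ← hw, proj_re E hE w]
  have h3 : ‖w‖ = ‖v‖ := by rw [hw]; exact (ρ g⁻¹).norm_map v
  have h4 : ‖w - v‖ ^ 2 = 2 * (‖v‖ ^ 2 - (⟪op ρ g⁻¹ v, v⟫_ℂ).re) := by
    rw [op_apply, ← hw, ← norm_sq_re, inner_sub_left, inner_sub_right, inner_sub_right,
      Complex.sub_re, Complex.sub_re, Complex.sub_re, norm_sq_re, norm_sq_re, h3]
    have h : (⟪v, w⟫_ℂ).re = (⟪w, v⟫_ℂ).re := by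
      rw [← inner_conj_symm, Complex.conj_re]
    rw [h]
    ring
  have h5 : ‖v‖ ^ 2 - ‖E w‖ ^ 2 = ‖w - E w‖ ^ 2 := by
    rw [proj_sub E hE w, h3]
  rw [h1, h5]
  have h6 : ‖w - E w‖ ≤ ‖v - E v‖ + ‖w - v‖ := by
    have h7 : w - E w = (v - E v) + ((w - v) - E (w - v)) := by
      rw [map_sub]
      abel
    rw [h7]
    refine (norm_add_le _ _).trans ?_
    have := proj_comp_le E hE (w - v)
    linarith
  have h8 : ‖w - E w‖ ^ 2 ≤ (‖v - E v‖ + ‖w - v‖) ^ 2 :=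
    pow_le_pow_left₀ (norm_nonneg _) h6 2
  nlinarith [sq_nonneg (‖v - E v‖ - ‖w - v‖)]

end DISPaux

open DISPaux in
/-- a nearly invariant vector near the range of `E` is near the top of the tree -/
theorem DISP (ρ : G →* (V ≃ₗᵢ[ℂ] V)) (E : Module.End ℂ V) (hE : SymIdem E) (q R : ℕ)
    (hq : 1 ≤ q) (z : Fin R → Fin q → G) (v : V) :
    ‖v‖ ^ 2 - (⟪AA ρ E R z v, v⟫_ℂ).re ≤
      2 * ‖v - E v‖ ^ 2 + 8 / (q : ℝ) * ∑ r, En ρ (z r) v := by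
  obtain ⟨μ, hμ0, hμ1, hA, hB⟩ := MU ρ q R hq z
  have e1 : ‖v‖ ^ 2 - (⟪AA ρ E R z v, v⟫_ℂ).re =
      ∑ g, μ g * (‖v‖ ^ 2 - (⟪cj ρ E g v, v⟫_ℂ).re) := by
    rw [hA E, re_avg]
    simp only [mul_sub, Finset.sum_sub_distrib, ← Finset.sum_mul, hμ1, one_mul]
  have e2 : ∑ g, μ g * (‖v‖ ^ 2 - (⟪cj ρ E g v, v⟫_ℂ).re) ≤
      ∑ g, μ g * (2 * ‖v - E v‖ ^ 2 + 4 * (‖v‖ ^ 2 - (⟪op ρ g⁻¹ v, v⟫_ℂ).re)) :=
    Finset.sum_le_sum fun g _ => mul_le_mul_of_nonneg_left (one_term ρ E hE g v) (hμ0 g)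
  have e3 : ∑ g, μ g * (2 * ‖v - E v‖ ^ 2 + 4 * (‖v‖ ^ 2 - (⟪op ρ g⁻¹ v, v⟫_ℂ).re)) =
      2 * ‖v - E v‖ ^ 2 + 4 * (‖v‖ ^ 2 -
        (⟪(List.ofFn fun s => TQ ρ (z s) * TQ ρ (z s)).prod v, v⟫_ℂ).re) := by
    rw [← hB, re_avg]
    have h1 : ∀ g, μ g * (2 * ‖v - E v‖ ^ 2 + 4 * (‖v‖ ^ 2 - (⟪op ρ g⁻¹ v, v⟫_ℂ).re)) =
        μ g * (2 * ‖v - E v‖ ^ 2 + 4 * ‖v‖ ^ 2) - 4 * (μ g * (⟪op ρ g⁻¹ v, v⟫_ℂ).re) := by
      intro g; ring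
    rw [Finset.sum_congr rfl fun g _ => h1 g, Finset.sum_sub_distrib, ← Finset.sum_mul, hμ1,
      ← Finset.mul_sum]
    ring
  have e4 := ZENO R (fun s => TQ ρ (z s) * TQ ρ (z s)) (fun s => (TQ2 ρ hq (z s)).1)
    (fun s w => (TQ2 ρ hq (z s)).2.1 w) (fun s w => (TQ2 ρ hq (z s)).2.2.1 w) v
  have e5 : ∑ s, (‖v‖ ^ 2 - (⟪(TQ ρ (z s) * TQ ρ (z s)) v, v⟫_ℂ).re) ≤
      ∑ s, En ρ (z s) v / q :=
    Finset.sum_le_sum fun s _ => (TQ2 ρ hq (z s)).2.2.2 v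
  have e6 : ∑ s, En ρ (z s) v / (q : ℝ) = 1 / (q : ℝ) * ∑ r, En ρ (z r) v := by
    rw [Finset.mul_sum]
    refine Finset.sum_congr rfl fun s _ => ?_
    ring
  rw [e1]
  refine e2.trans ?_
  rw [e3]
  have e7 : 8 / (q : ℝ) * ∑ r, En ρ (z r) v = 8 * (1 / (q : ℝ) * ∑ r, En ρ (z r) v) := by ring
  rw [e7, ← e6]
  linarith

end RC14
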